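import Pool.Agent.H76.ND.Final

/-!
# A criterion for absolute continuity of the Bernoulli convolutions near `1/√2`

With `δ = |l - 1/√2|` and `D = δ log² δ`: for all `l` near `1/√2`, the Bernoulli convolution with parameter `l` is absolutely continuous with a density
in `L²` as soon as its Fourier transform is `O (t ^ (-η))` for some `η > C D`.
-/

set_option autoImplicit false

namespace Pool.Agent.Results.MP_341792_an.DecayCriterion

open MeasureTheory Pool.Agent.H76.ND

/-- `nu l` is the law of `∑ ± l ^ n` for independent fair signs. -/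
theorem result : ∃ C : ℝ, 0 < C ∧ ∀ l δ D : ℝ, δ = |l - 1 / √2| → D = δ * Real.log δ ^ 2 → 0 < δ → δ ≤ C⁻¹ →
    IsProbabilityMeasure (nu l) ∧ ∀ K η : ℝ, C * D < η → (∀ t : ℝ, 1 ≤ t → ‖charFun (nu l) t‖ ≤ K * t ^ (-η)) →
      ∃ g : ℝ → ℝ, MemLp g 2 volume ∧ nu l = volume.withDensity fun x => ENNReal.ofReal (g x) := by
  refine ⟨10 ^ 14, by norm_num, fun l δ D hδ hD h0 h1 => ?_⟩
  subst hδ
  subst hD
  exact ⟨nu_prob (fin_one h1).1.le (fin_one h1).2, fun K η hη hK => fin_ac h0 h1 hη hK⟩

end Pool.Agent.Results.MP_341792_an.DecayCriterion
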