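import Pool.Agent.H76.NE.Lq

/-!
# The `L^q` spectrum of the Bernoulli convolutions near `1/√2`

With `δ = |l - 1/√2|` and `D = δ log² δ`: for all `l` near `1/√2`, all `q ≥ 2` and all scales `r ≤ 1`, the `L^q` norm of the Bernoulli convolution with
parameter `l` at the scale `r` is within the factor `r ^ (-C ((q - 2) D + D³))` of that of a measure with bounded density.
-/

set_option autoImplicit false

namespace Pool.Agent.Results.MP_341792_an.LqSpectrum

open MeasureTheory Pool.Agent.H76.ND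

/-- `nu l` is the law of `∑ ± l ^ n` for independent fair signs. -/
theorem result : ∃ C : ℝ, 0 < C ∧ ∀ l δ D : ℝ, δ = |l - 1 / √2| → D = δ * Real.log δ ^ 2 → 0 < δ → δ ≤ C⁻¹ →
    IsProbabilityMeasure (nu l) ∧ ∀ q r : ℝ, 2 ≤ q → 0 < r → r ≤ 1 →
      ∫ x, (nu l).real (Metric.closedBall x r) ^ (q - 1) ∂(nu l) ≤
        C ^ (q - 1) * r ^ ((q - 1) - C * ((q - 2) * D + D ^ 3)) := by
  refine ⟨10 ^ 14, by norm_num, fun l δ D hδ hD h0 h1 => ?_⟩
  subst hδ
  subst hD
  exact ⟨nu_prob (fin_one h1).1.le (fin_one h1).2, fun q r hq hr hr1 => Pool.Agent.H76.NE.lq_near h0 h1 hq hr hr1⟩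

end Pool.Agent.Results.MP_341792_an.LqSpectrum
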