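import Pool.Agent.H98.BC.FinalD

/-!
# Bernoulli convolutions near `1/√2`: no entropy obstruction off the near-Salem parameters

For every `d > 0` there is an interval around `1/√2` and a constant `c > 0` such that, for every `l` in the interval which is not a root,
together with `1/l`, of an irreducible integer polynomial of Mahler measure less than `(1 + d) / l`, the partial sums
`∑_{i < n} ± l ^ i` have at most `C (4 l e^{-c}) ^ n` coincidences, and entropy at least `n (log (1/l) + c) - C`.
-/

set_option autoImplicit false

namespace Pool.Agent.Results.MP_341792_an.NoOverlapObstruction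

open Pool.Agent.H76.BC

/-- `coll l n` is the number of pairs of sign sequences of length `n` with the same sum `∑ ± l ^ i`, `entropy l n` the Shannon entropy of
this sum for fair independent signs. -/
theorem result (d : ℝ) (hd : 0 < d) : ∃ ε > 0, ∃ c > 0, ∃ C : ℝ, ∀ l : ℝ, |l - 1 / √2| < ε →
    (∀ P : Polynomial ℤ, Irreducible P → Polynomial.aeval l P = 0 → Polynomial.aeval l⁻¹ P = 0 →
      (1 + d) / l ≤ (P.map (Int.castRingHom ℂ)).mahlerMeasure) →
    ∀ n : ℕ, (coll l n : ℝ) ≤ C * (4 * l * Real.exp (-c)) ^ n ∧ n * (Real.log (1 / l) + c) - C ≤ entropy l n :=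
  final_d hd

end Pool.Agent.Results.MP_341792_an.NoOverlapObstruction
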