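import Pool.Agent.H76.NE.Thm

/-!
# The exceptional parameters near `1/√2` are super-exponentially thin, with a uniform `L²` bound

For small `ε`, with `D = ε log² ε`: all parameters `l` of the window `|l - 1/√2| ≤ ε` outside countably many intervals with `∑ r ^ s ≤ exp (-s / (C D³))`
for all `s` between `C D log (1/D)` and `1` have an absolutely continuous Bernoulli convolution whose density `g` satisfies `∫ g² ≤ 236`.
-/

set_option autoImplicit false

namespace Pool.Agent.Results.MP_341792_an.ThinExceptionalSet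

open MeasureTheory Pool.Agent.H76.ND

/-- `nu l` is the law of `∑ ± l ^ n` for independent fair signs. -/
theorem result : ∃ C : ℝ, 0 < C ∧ ∀ ε D : ℝ, 0 < ε → ε ≤ C⁻¹ → D = ε * Real.log ε ^ 2 →
    ∃ (ι : Type) (_ : Countable ι) (c r : ι → ℝ), (∀ i, 0 < r i) ∧
      (∀ s : ℝ, C * D * Real.log D⁻¹ ≤ s → s ≤ 1 →
        ∑' i, ENNReal.ofReal (r i ^ s) ≤ ENNReal.ofReal (Real.exp (-(s / (C * D ^ 3))))) ∧
      ∀ l : ℝ, |l - 1 / √2| ≤ ε → (∀ i, r i < |l - c i|) → IsProbabilityMeasure (nu l) ∧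
        ∃ g : ℝ → ℝ, MemLp g 2 volume ∧ ∫ x, g x ^ 2 ≤ 236 ∧ nu l = volume.withDensity fun x => ENNReal.ofReal (g x) :=
  Pool.Agent.H76.NE.main

end Pool.Agent.Results.MP_341792_an.ThinExceptionalSet
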